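import Pool.Agent.Y957.VK.Un4
import Pool.Agent.Y957.VK.Fin2a

/-!
# The strong MOMO property of horocycle flows along lacunary blocks, for most points of geodesic segments

Let `h` and `a` be continuous flows on a topological space `X` with
`h t ∘ a s = a s ∘ h (exp (c s) t)`, `c ≠ 0`, for example the horocycle flow and the geodesic flow on
`Γ \ PSL_2(ℝ)`, `c = -2`.  Let `0 = b 0 < b 1 < …` be integers with `b (k + 1) ≥ q b k`, `q > 1`.

For every `f` in `C_0(X)` and `ε > 0` there is `K₀` such that for all `K ≥ K₀` and ALL sequences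
`(x k)` of points: for all `s` in `[0, 1]` outside a set of measure at most `ε` the sum over `k < K`
of `|∑_{b k ≤ n < b (k + 1)} μ(n) f (h n (a s (x k)))|` is smaller than `ε b K`.
-/

set_option autoImplicit false

namespace Pool.Agent.Results.MP_2b7f8f_an.LacunaryBlocks

open MeasureTheory Filter Topology

/-- a continuous flow -/
structure IsFlow {X : Type} [TopologicalSpace X] (h : ℝ → X → X) : Prop where
  zero : ∀ x, h 0 x = x
  add : ∀ s t x, h (s + t) x = h s (h t x)
  cont : Continuous fun p : ℝ × X => h p.1 p.2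

/-- the sum over the block `[m, m')` -/
noncomputable def block {X : Type} (h : ℝ → X → X) (f : X → ℂ) (m m' : ℕ) (y : X) : ℂ :=
  ∑ n ∈ Finset.Ico m m', (ArithmeticFunction.moebius n : ℂ) * f (h n y)

theorem mob_norm (n : ℕ) : ‖((ArithmeticFunction.moebius n : ℤ) : ℂ)‖ ≤ 1 := by
  rw [Complex.norm_intCast]
  exact_mod_cast ArithmeticFunction.abs_moebius_le_one

theorem bdd {X : Type} [TopologicalSpace X] (f : X → ℂ) (hf : Continuous f)
    (hf0 : Tendsto f (cocompact X) (𝓝 0)) : ∃ M : ℝ, 0 < M ∧ ∀ x, ‖f x‖ ≤ M := by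
  obtain ⟨F, hF, hFs, hfF⟩ := Pool.Agent.Y957.Un.cut f hf hf0 1 one_pos
  obtain ⟨C, hC⟩ := hFs.exists_bound_of_continuous hF
  refine ⟨|C| + 1, by positivity, fun x => ?_⟩
  have h1 := hfF x
  have h2 := hC x
  have h3 := norm_sub_norm_le (f x) (F x)
  have h4 := le_abs_self C
  linarith

/-- Lacunary blocks -/
theorem result {X : Type} [TopologicalSpace X] (h a : ℝ → X → X) (hh : IsFlow h) (ha : IsFlow a)
    (c : ℝ) (hc : c ≠ 0) (hrel : ∀ s t x, h t (a s x) = a s (h (Real.exp (c * s) * t) x))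
    (f : X → ℂ) (hf : Continuous f) (hf0 : Tendsto f (cocompact X) (𝓝 0))
    (b : ℕ → ℕ) (q : ℝ) (hq : 1 < q) (hb0 : b 0 = 0) (hb1 : 0 < b 1) (hb : ∀ k, q * b k ≤ b (k + 1))
    (ε : ℝ) (hε : 0 < ε) :
    ∃ K₀ : ℕ, ∀ K : ℕ, K₀ ≤ K → ∀ x : ℕ → X,
      volume {s : ℝ | s ∈ Set.Icc 0 1 ∧ ε ≤ (1 / (b K : ℝ)) *
        ∑ k ∈ Finset.range K, ‖block h f (b k) (b (k + 1)) (a s (x k))‖} ≤ ENNReal.ofReal ε := by
  obtain ⟨M, hM, hfM⟩ := bdd f hf hf0
  have hq0 : 0 < q := by linarith
  obtain ⟨J, hJ⟩ : ∃ J : ℕ, M * (1 / q) ^ J < ε / 4 := by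
    obtain ⟨J, hJ⟩ := exists_pow_lt_of_lt_one (show 0 < ε / 4 / M by positivity)
      ((div_lt_one hq0).2 hq)
    refine ⟨J, ?_⟩
    rw [lt_div_iff₀ hM] at hJ
    linarith
  obtain ⟨η, hη⟩ : ∃ η : ℝ, η = ε / (8 * (J + 1)) := ⟨_, rfl⟩
  have hη0 : 0 < η := by rw [hη]; positivity
  have hηJ : 2 * (J : ℝ) * η ≤ ε / 4 := by
    rw [hη]
    have h1 : 2 * (J : ℝ) * (ε / (8 * (J + 1))) = (ε / 4) * (J / (J + 1)) := by
      field_simp
      ring
    rw [h1]
    have h2 : (J : ℝ) / (J + 1) ≤ 1 := (div_le_one (by positivity)).2 (by linarith)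
    have h3 : 0 < ε / 4 := by positivity
    nlinarith
  obtain ⟨N₀, h0⟩ := Pool.Agent.Y957.Un.flows0 h a ⟨hh.zero, hh.add⟩ ⟨ha.zero, ha.add⟩ hh.cont ha.cont c hc hrel
    (fun n => ((ArithmeticFunction.moebius n : ℤ) : ℂ)) mob_norm Pool.Agent.Y957.VK.neg_mu f hf hf0 η hη0
  have hpos : ∀ k, 1 ≤ k → 0 < b k := by
    intro k hk
    induction k, hk using Nat.le_induction with
    | base => exact hb1
    | succ k _ ih =>
      have h1 := hb k
      have h2 : (0 : ℝ) < b k := by exact_mod_cast ih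
      have h3 : (0 : ℝ) < b (k + 1) := lt_of_lt_of_le (by positivity) h1
      exact_mod_cast h3
  have hmono : StrictMono b := strictMono_nat_of_lt_succ fun k => by
    rcases Nat.eq_zero_or_pos k with hk | hk
    · rw [hk, hb0]
      exact hb1
    · have h1 := hb k
      have h2 : (0 : ℝ) < b k := by exact_mod_cast hpos k hk
      have h3 : (b k : ℝ) < b (k + 1) := lt_of_lt_of_le (by nlinarith) h1
      exact_mod_cast h3
  have hpow : ∀ k j : ℕ, q ^ j * b k ≤ b (k + j) := by
    intro k j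
    induction j with
    | zero => simp
    | succ j ih =>
      have h1 := hb (k + j)
      calc q ^ (j + 1) * b k = q * (q ^ j * b k) := by ring
        _ ≤ q * b (k + j) := mul_le_mul_of_nonneg_left ih hq0.le
        _ ≤ b (k + (j + 1)) := h1
  refine ⟨N₀ + 1 + J, fun K hK x => ?_⟩
  obtain ⟨I, hI⟩ : ∃ I, K = I + J := ⟨K - J, by omega⟩
  have hKb : (0 : ℝ) < b K := by exact_mod_cast hpos K (by omega)
  -- sums up to N - 1
  have hT : ∀ N : ℕ, 1 ≤ N → ∀ y : X, block h f 1 N y =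
      ((N - 1 : ℕ) : ℂ) * ((1 / ((N - 1 : ℕ) : ℂ)) * ∑ n ∈ Finset.Icc 1 (N - 1),
        (ArithmeticFunction.moebius n : ℂ) * f (h n y)) := by
    intro N hN y
    have e : Finset.Ico 1 N = Finset.Icc 1 (N - 1) := by
      ext n
      simp only [Finset.mem_Ico, Finset.mem_Icc]
      omega
    unfold block
    rw [e]
    rcases Nat.eq_zero_or_pos (N - 1) with h1 | h1
    · rw [h1]
      simp
    · have h2 : ((N - 1 : ℕ) : ℂ) ≠ 0 := by exact_mod_cast h1.ne'
      field_simp
  -- the bad sets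
  obtain ⟨B, hB⟩ : ∃ B : ℕ → X → Set ℝ, ∀ N y, B N y = {s : ℝ | s ∈ Set.Icc 0 1 ∧ η ≤ ‖(1 / (N : ℂ)) *
      ∑ n ∈ Finset.Icc 1 N, ((ArithmeticFunction.moebius n : ℤ) : ℂ) * f (h n (a s y))‖} := ⟨_, fun _ _ => rfl⟩
  have hBm : ∀ N, N₀ ≤ N → ∀ y, volume (B N y) ≤ ENNReal.ofReal η := fun N hN y => by
    have h1 := h0 N hN y
    rw [Measure.restrict_apply' measurableSet_Icc, Set.inter_comm] at h1
    rw [hB]
    exact h1
  have hsub : {s : ℝ | s ∈ Set.Icc 0 1 ∧ ε ≤ (1 / (b K : ℝ)) *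
      ∑ k ∈ Finset.range K, ‖block h f (b k) (b (k + 1)) (a s (x k))‖} ⊆
      ⋃ j ∈ Finset.range J, (B (b (I + j + 1) - 1) (x (I + j)) ∪ B (b (I + j) - 1) (x (I + j))) := by
    rintro s ⟨hs, hse⟩
    by_contra hcon
    rw [Set.mem_iUnion₂] at hcon
    push Not at hcon
    have hgood : ∀ N, 1 ≤ N → ∀ y, s ∉ B (N - 1) y → ‖block h f 1 N (a s y)‖ ≤ η * N := by
      intro N hN y hns
      have h1 : ‖(1 / ((N - 1 : ℕ) : ℂ)) * ∑ n ∈ Finset.Icc 1 (N - 1),
          (ArithmeticFunction.moebius n : ℂ) * f (h n (a s y))‖ < η := by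
        by_contra h2
        apply hns
        rw [hB]
        exact ⟨hs, not_lt.1 h2⟩
      rw [hT N hN, norm_mul, Complex.norm_natCast]
      have h2 : ((N - 1 : ℕ) : ℝ) ≤ N := by exact_mod_cast Nat.sub_le N 1
      calc ((N - 1 : ℕ) : ℝ) * _ ≤ ((N - 1 : ℕ) : ℝ) * η := by gcongr
        _ ≤ N * η := by gcongr
        _ = η * N := mul_comm _ _
    have hlast : ∀ j ∈ Finset.range J, ‖block h f (b (I + j)) (b (I + j + 1)) (a s (x (I + j)))‖ ≤
        2 * η * b K := by
      intro j hj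
      have hj1 := Finset.mem_range.1 hj
      have h1 := hcon j hj
      rw [Set.mem_union, not_or] at h1
      have p1 : 1 ≤ b (I + j) := hpos _ (by omega)
      have p2 : b (I + j) ≤ b (I + j + 1) := hmono.monotone (by omega)
      have p3 : b (I + j + 1) ≤ b K := hmono.monotone (by omega)
      have g1 := hgood _ (p1.trans p2) _ h1.1
      have g2 := hgood _ p1 _ h1.2
      have e : block h f (b (I + j)) (b (I + j + 1)) (a s (x (I + j))) =
          block h f 1 (b (I + j + 1)) (a s (x (I + j))) - block h f 1 (b (I + j)) (a s (x (I + j))) := by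
        unfold block
        rw [← Finset.sum_Ico_consecutive _ p1 p2]
        ring
      rw [e]
      have r1 : (b (I + j + 1) : ℝ) ≤ b K := by exact_mod_cast p3
      have r2 : (b (I + j) : ℝ) ≤ b K := by exact_mod_cast p2.trans p3
      have r3 : η * b (I + j + 1) ≤ η * b K := mul_le_mul_of_nonneg_left r1 hη0.le
      have r4 : η * b (I + j) ≤ η * b K := mul_le_mul_of_nonneg_left r2 hη0.le
      refine (norm_sub_le _ _).trans ?_
      linarith
    have hfirst : ∑ k ∈ Finset.range I, ‖block h f (b k) (b (k + 1)) (a s (x k))‖ ≤ M * b I := by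
      have h1 : ∀ k ∈ Finset.range I, ‖block h f (b k) (b (k + 1)) (a s (x k))‖ ≤
          M * ((b (k + 1) : ℝ) - b k) := by
        intro k _
        unfold block
        refine (norm_sum_le _ _).trans ((Finset.sum_le_sum (g := fun _ => M) fun n _ => ?_).trans ?_)
        · rw [norm_mul]
          calc _ ≤ 1 * M := mul_le_mul (mob_norm n) (hfM _) (norm_nonneg _) zero_le_one
            _ = M := one_mul M
        · rw [Finset.sum_const, Nat.card_Ico, nsmul_eq_mul, Nat.cast_sub (hmono.monotone (by omega))]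
          linarith
      refine (Finset.sum_le_sum h1).trans ?_
      rw [← Finset.mul_sum, Finset.sum_range_sub (fun k => (b k : ℝ)), hb0]
      simp
    have htot : ∑ k ∈ Finset.range K, ‖block h f (b k) (b (k + 1)) (a s (x k))‖ ≤
        M * b I + J * (2 * η * b K) := by
      rw [hI, Finset.sum_range_add]
      rw [← hI]
      refine add_le_add hfirst ?_
      refine (Finset.sum_le_sum hlast).trans ?_
      rw [Finset.sum_const, Finset.card_range, nsmul_eq_mul]
    have hbI : M * (b I : ℝ) ≤ ε / 4 * b K := by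
      have h1 := hpow I J
      rw [← hI] at h1
      have hqJ : 0 < q ^ J := by positivity
      have h2 : (b I : ℝ) ≤ (1 / q) ^ J * b K := by
        rw [one_div, inv_pow, ← div_eq_inv_mul, le_div_iff₀ hqJ]
        linarith
      calc M * (b I : ℝ) ≤ M * ((1 / q) ^ J * b K) := by gcongr
        _ = (M * (1 / q) ^ J) * b K := by ring
        _ ≤ ε / 4 * b K := by gcongr
    have hJη : (J : ℝ) * (2 * η * b K) ≤ ε / 4 * b K := by
      have : (J : ℝ) * (2 * η * b K) = (2 * J * η) * b K := by ring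
      rw [this]
      gcongr
    have hfin : (1 / (b K : ℝ)) * ∑ k ∈ Finset.range K, ‖block h f (b k) (b (k + 1)) (a s (x k))‖ ≤ ε / 2 := by
      rw [one_div, inv_mul_le_iff₀ hKb]
      linarith
    linarith
  refine (measure_mono hsub).trans ((measure_biUnion_finset_le _ _).trans ?_)
  have h7 : ∀ j ∈ Finset.range J, volume (B (b (I + j + 1) - 1) (x (I + j)) ∪ B (b (I + j) - 1) (x (I + j))) ≤
      ENNReal.ofReal (2 * η) := by
    intro j _
    have q1 : I + j ≤ b (I + j) := hmono.le_apply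
    have q2 : I + j + 1 ≤ b (I + j + 1) := hmono.le_apply
    refine (measure_union_le _ _).trans ?_
    rw [two_mul, ENNReal.ofReal_add hη0.le hη0.le]
    exact add_le_add (hBm _ (by omega) _) (hBm _ (by omega) _)
  refine (Finset.sum_le_sum h7).trans ?_
  rw [Finset.sum_const, Finset.card_range, nsmul_eq_mul, ← ENNReal.ofReal_natCast,
    ← ENNReal.ofReal_mul (Nat.cast_nonneg J)]
  apply ENNReal.ofReal_le_ofReal
  linarith

end Pool.Agent.Results.MP_2b7f8f_an.LacunaryBlocks
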